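import Pool.Agent.Run7.h635.PER.Stm

/-!
# BOL: Bol's identity (helper13)
-/

set_option autoImplicit false

open MatrixGroups UpperHalfPlane ModularForm CongruenceSubgroup Matrix
open scoped Manifold

namespace H635.PER

namespace Bol

/-- the upper half plane as a subset of `ℂ` -/
def U : Set ℂ := {z | 0 < z.im}

lemma isOpen_U : IsOpen U := isOpen_upperHalfPlaneSet

lemma iter_an {F : ℂ → ℂ} (hF : AnalyticOnNhd ℂ F U) (n : ℕ) : AnalyticOnNhd ℂ (iteratedDeriv n F) U := by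
  rw [iteratedDeriv_eq_iterate]
  exact hF.iterated_deriv n

lemma ev {F G : ℂ → ℂ} (h : ∀ z ∈ U, F z = G z) {z : ℂ} (hz : z ∈ U) : F =ᶠ[nhds z] G :=
  Filter.eventually_of_mem (isOpen_U.mem_nhds hz) h

lemma hd {F : ℂ → ℂ} (hF : AnalyticOnNhd ℂ F U) (n : ℕ) {z : ℂ} (hz : z ∈ U) :
    HasDerivAt (iteratedDeriv n F) (iteratedDeriv (n + 1) F z) z := by
  rw [iteratedDeriv_succ]
  exact (iter_an hF n z hz).differentiableAt.hasDerivAt

lemma lin (c d z : ℂ) : HasDerivAt (fun w => c * w + d) c z := by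
  simpa using ((hasDerivAt_id z).const_mul c).add_const d

/-- Leibniz' rule for a linear factor -/
lemma leib {K : ℂ → ℂ} (hK : AnalyticOnNhd ℂ K U) (c d : ℂ) (m : ℕ) : ∀ z ∈ U,
    iteratedDeriv (m + 1) (fun w => (c * w + d) * K w) z =
      (c * z + d) * iteratedDeriv (m + 1) K z + ((m : ℂ) + 1) * c * iteratedDeriv m K z := by
  induction m with
  | zero =>
    intro z hz
    have h1 := hd hK 0 hz
    rw [iteratedDeriv_zero] at h1
    have h2 : HasDerivAt (fun w => (c * w + d) * K w) (c * K z + (c * z + d) * iteratedDeriv (0 + 1) K z) z :=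
      (lin c d z).mul h1
    rw [iteratedDeriv_succ, iteratedDeriv_zero, h2.deriv, iteratedDeriv_zero]
    push_cast
    ring
  | succ m ih =>
    intro z hz
    rw [iteratedDeriv_succ, (ev ih hz).deriv_eq]
    have h1 := hd hK (m + 1) hz
    have h0 := hd hK m hz
    have h2 : HasDerivAt (fun z => (c * z + d) * iteratedDeriv (m + 1) K z + ((m : ℂ) + 1) * c * iteratedDeriv m K z)
        (c * iteratedDeriv (m + 1) K z + (c * z + d) * iteratedDeriv (m + 1 + 1) K z +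
          ((m : ℂ) + 1) * c * iteratedDeriv (m + 1) K z) z :=
      ((lin c d z).mul h1).add (h0.const_mul (((m : ℂ) + 1) * c))
    rw [h2.deriv]
    push_cast
    ring

/-- the derivative of `j ^ e * G ∘ δ` -/
lemma hdj {G : ℂ → ℂ} {a b c d D z G' : ℂ} (hD : a * d - b * c = D) (hj : c * z + d ≠ 0)
    (hG : HasDerivAt G G' ((a * z + b) / (c * z + d))) (e : ℤ) :
    HasDerivAt (fun w => (c * w + d) ^ e * G ((a * w + b) / (c * w + d)))
      ((e : ℂ) * (c * z + d) ^ (e - 1) * c * G ((a * z + b) / (c * z + d)) +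
        (c * z + d) ^ e * (G' * (D / (c * z + d) ^ 2))) z := by
  have h1 : HasDerivAt (fun w : ℂ => (c * w + d) ^ e) ((e : ℂ) * (c * z + d) ^ (e - 1) * c) z :=
    HasDerivAt.comp (h₂ := fun x : ℂ => x ^ e) z (hasDerivAt_zpow e (c * z + d) (Or.inl hj)) (lin c d z)
  have h2 : HasDerivAt (fun w : ℂ => (a * w + b) / (c * w + d)) (D / (c * z + d) ^ 2) z := by
    refine ((lin a b z).div (lin c d z) hj).congr_deriv ?_
    rw [← hD]
    congr 1
    ring
  exact h1.mul (hG.comp z h2)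

lemma core {F : ℂ → ℂ} (hF : AnalyticOnNhd ℂ F U) {a b c d D : ℂ} (hD : a * d - b * c = D)
    (hj : ∀ z ∈ U, c * z + d ≠ 0) (hU : ∀ z ∈ U, (a * z + b) / (c * z + d) ∈ U) (m : ℕ) : ∀ z ∈ U,
    iteratedDeriv m (fun w => (c * w + d) ^ ((m : ℤ) - 1) * F ((a * w + b) / (c * w + d))) z =
      D ^ m * ((c * z + d) ^ (-(m : ℤ) - 1) * iteratedDeriv m F ((a * z + b) / (c * z + d))) := by
  induction m with
  | zero =>
    intro z _
    simp
  | succ m ih =>
    intro z hz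
    set K : ℂ → ℂ := fun w => (c * w + d) ^ ((m : ℤ) - 1) * F ((a * w + b) / (c * w + d)) with hKd
    have hK : AnalyticOnNhd ℂ K U := by
      refine DifferentiableOn.analyticOnNhd (fun w hw => ?_) isOpen_U
      have h1 := hd hF 0 (hU w hw)
      rw [iteratedDeriv_zero] at h1
      exact (hdj hD (hj w hw) h1 ((m : ℤ) - 1)).differentiableAt.differentiableWithinAt
    have h1 : ∀ w ∈ U, (c * w + d) ^ (((m + 1 : ℕ) : ℤ) - 1) * F ((a * w + b) / (c * w + d)) =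
        (c * w + d) * K w := by
      intro w hw
      have e1 : (((m + 1 : ℕ) : ℤ) - 1) = 1 + ((m : ℤ) - 1) := by push_cast; ring
      rw [e1, zpow_add₀ (hj w hw), zpow_one, hKd, mul_assoc]
    rw [(ev h1 hz).iteratedDeriv_eq (m + 1), leib hK c d m z hz, ih z hz, iteratedDeriv_succ,
      (ev ih hz).deriv_eq]
    have h2 := hd hF m (hU z hz)
    have h3 := (hdj hD (hj z hz) h2 (-(m : ℤ) - 1)).const_mul (D ^ m)
    rw [h3.deriv]
    have hjz := hj z hz
    have e2 : (c * z + d) ^ (-(m : ℤ) - 1 - 1) = (c * z + d) ^ (-(m : ℤ) - 1) / (c * z + d) :=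
      zpow_sub_one₀ hjz _
    have e3 : (c * z + d) ^ (-((m + 1 : ℕ) : ℤ) - 1) = (c * z + d) ^ (-(m : ℤ) - 1) / (c * z + d) := by
      rw [← e2]
      congr 1
      push_cast
      ring
    rw [e2, e3]
    push_cast
    field_simp
    ring

end Bol

open Bol in
theorem bol : S_Bol := by
  intro m h H hH hh δ hδ z
  have hF : AnalyticOnNhd ℂ (H ∘ ofComplex) U := (UpperHalfPlane.mdifferentiable_iff.1 hH).analyticOnNhd isOpen_U
  set a : ℂ := ((δ 0 0 : ℝ) : ℂ) with ha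
  set b : ℂ := ((δ 0 1 : ℝ) : ℂ) with hb
  set c : ℂ := ((δ 1 0 : ℝ) : ℂ) with hc
  set d : ℂ := ((δ 1 1 : ℝ) : ℂ) with hd'
  set D : ℂ := ((δ.det.val : ℝ) : ℂ) with hDd
  have hD : a * d - b * c = D := by
    rw [hDd, Matrix.GeneralLinearGroup.val_det_apply, Matrix.det_fin_two]
    push_cast
    ring
  have hD0 : D ≠ 0 := by
    rw [hDd]
    exact_mod_cast hδ.ne'
  have hden : ∀ w : ℍ, denom δ w = c * w + d := fun w => rfl
  have hnum : ∀ w : ℍ, num δ w = a * w + b := fun w => rfl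
  have hj : ∀ w ∈ U, c * w + d ≠ 0 := fun w hw => denom_ne_zero δ ⟨w, hw⟩
  have hpt : ∀ w : ℍ, ((δ • w : ℍ) : ℂ) = (a * w + b) / (c * w + d) := fun w => coe_smul_of_det_pos hδ w
  have hU : ∀ w ∈ U, (a * w + b) / (c * w + d) ∈ U := by
    intro w hw
    have := hpt ⟨w, hw⟩
    rw [show (a * w + b) / (c * w + d) = ((δ • (⟨w, hw⟩ : ℍ) : ℍ) : ℂ) from this.symm]
    exact (δ • (⟨w, hw⟩ : ℍ)).im_pos
  have hσ : ∀ x : ℂ, σ δ x = x := by
    intro x
    unfold σ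
    rw [if_pos hδ]
    rfl
  have h1 : ∀ w ∈ U, ((H ∣[(1 - m : ℤ)] δ) ∘ ofComplex) w =
      D ^ (-(m : ℤ)) * ((c * w + d) ^ ((m : ℤ) - 1) * (H ∘ ofComplex) ((a * w + b) / (c * w + d))) := by
    intro w hw
    have e1 : ofComplex w = ⟨w, hw⟩ := ofComplex_apply_of_im_pos hw
    rw [Function.comp_apply, e1, slash_apply, hσ, Function.comp_apply, abs_of_pos hδ, hden]
    have e2 : (a * w + b) / (c * w + d) = ((δ • (⟨w, hw⟩ : ℍ) : ℍ) : ℂ) := (hpt ⟨w, hw⟩).symm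
    rw [e2, ofComplex_apply]
    have e3 : (1 - (m : ℤ) - 1) = -(m : ℤ) := by ring
    have e4 : -(1 - (m : ℤ)) = (m : ℤ) - 1 := by ring
    rw [e3, e4]
    ring
  have hz : (z : ℂ) ∈ U := z.im_pos
  rw [(ev h1 hz).iteratedDeriv_eq m, iteratedDeriv_const_mul_field, core hF hD hj hU m z hz, slash_apply, hσ,
    abs_of_pos hδ, hden, ← hpt z, hh]
  have e5 : D ^ (-(m : ℤ)) * (D ^ m * ((c * (z : ℂ) + d) ^ (-(m : ℤ) - 1) * h (δ • z))) =
      (c * (z : ℂ) + d) ^ (-(m : ℤ) - 1) * h (δ • z) := by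
    rw [← mul_assoc, ← zpow_natCast, ← zpow_add₀ hD0, neg_add_cancel, zpow_zero, one_mul]
  rw [e5]
  have e6 : ((m : ℤ) + 1 - 1) = m := by ring
  have e7 : -((m : ℤ) + 1) = -(m : ℤ) - 1 := by ring
  rw [e6, e7]
  have e8 : D ^ (-(m : ℤ)) * (h (δ • z) * D ^ ((m : ℕ) : ℤ) * (c * (z : ℂ) + d) ^ (-(m : ℤ) - 1)) =
      (D ^ (-(m : ℤ)) * D ^ ((m : ℕ) : ℤ)) * (h (δ • z) * (c * (z : ℂ) + d) ^ (-(m : ℤ) - 1)) := by ring
  rw [e8, ← zpow_add₀ hD0, neg_add_cancel, zpow_zero, one_mul, mul_comm]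

end H635.PER
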