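import Pool.Agent.Run7.h13.PER.Bol
import Pool.Agent.Y119.HY.Ps

/-!
# EIX: Eichler integrals of cusp forms (helper13)
-/

set_option autoImplicit false

open MatrixGroups UpperHalfPlane ModularForm CongruenceSubgroup Matrix
open scoped Manifold

namespace H635.PER

namespace Eix

open Bol Filter Topology Asymptotics Function
open Pool.Agent.Y119.HY (ps PG ps_zero ps_deriv ps_an ps_diff)

variable {L : ℝ} {c : ℕ → ℂ}

/-- `2 π i / L` -/
noncomputable def κ (L : ℝ) : ℂ := 2 * Real.pi * Complex.I / L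

lemma q_eq (w : ℂ) : Periodic.qParam L w = Complex.exp (κ L * w) := by
  unfold Periodic.qParam κ
  congr 1
  ring

lemma hd_q (w : ℂ) : HasDerivAt (Periodic.qParam L) (κ L * Periodic.qParam L w) w := by
  have h1 : Periodic.qParam L = fun w => Complex.exp (κ L * w) := funext q_eq
  have h2 : HasDerivAt (fun w : ℂ => κ L * w) (κ L) w := by
    simpa using (hasDerivAt_id w).const_mul (κ L)
  rw [h1]
  exact h2.cexp.congr_deriv (mul_comm _ _)

lemma q_lt (hL : 0 < L) {w : ℂ} (hw : w ∈ U) : ‖Periodic.qParam L w‖ < 1 := Periodic.norm_qParam_lt_one hL hw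

lemma PG_pow (hc : PG c) (j : ℕ) : PG fun k => (k : ℂ) ^ j * c k := by
  induction j with
  | zero => simpa using hc
  | succ j ih =>
    refine (congrArg PG ?_).mp ih.nat
    funext k
    rw [pow_succ']
    ring

lemma hd_ps (hL : 0 < L) (hc : PG c) {w : ℂ} (hw : w ∈ U) :
    HasDerivAt (fun w => ps c (Periodic.qParam L w)) (κ L * ps (fun k => (k : ℂ) * c k) (Periodic.qParam L w)) w := by
  have h1 := q_lt hL hw
  have h2 : HasDerivAt (ps c) (deriv (ps c) (Periodic.qParam L w)) (Periodic.qParam L w) :=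
    (ps_an hc _ (by rwa [Metric.mem_ball, dist_zero_right])).differentiableAt.hasDerivAt
  refine (h2.comp w (hd_q w)).congr_deriv ?_
  rw [← ps_deriv hc h1]
  ring

lemma iter (hL : 0 < L) (hc : PG c) (j : ℕ) : ∀ w ∈ U,
    iteratedDeriv j (fun w => ps c (Periodic.qParam L w)) w =
      κ L ^ j * ps (fun k => (k : ℂ) ^ j * c k) (Periodic.qParam L w) := by
  induction j with
  | zero =>
    intro w _
    simp
  | succ j ih =>
    intro w hw
    rw [iteratedDeriv_succ, (ev ih hw).deriv_eq, ((hd_ps hL (PG_pow hc j) hw).const_mul (κ L ^ j)).deriv, pow_succ,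
      mul_assoc]
    congr 3
    funext k
    rw [pow_succ']
    ring

/-- polynomial growth from the order of growth -/
lemma PG_of_isBigO {e : ℝ} (h : c =O[atTop] fun n => (n : ℝ) ^ e) : PG c := by
  obtain ⟨C, hC0, hC⟩ := h.exists_pos
  obtain ⟨N, hN⟩ := eventually_atTop.1 hC.bound
  set p := ⌈e⌉₊ with hp
  refine ⟨C + ∑ k ∈ Finset.range N, ‖c k‖, p, fun n => ?_⟩
  have h1 : (1 : ℝ) ≤ ((n : ℝ) + 1) ^ p := one_le_pow₀ (by linarith [Nat.cast_nonneg (α := ℝ) n])
  have h2 : 0 ≤ ∑ k ∈ Finset.range N, ‖c k‖ := Finset.sum_nonneg fun _ _ => norm_nonneg _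
  rcases lt_or_ge n N with hn | hn
  · have h3 : ‖c n‖ ≤ ∑ k ∈ Finset.range N, ‖c k‖ :=
      Finset.single_le_sum (f := fun k => ‖c k‖) (fun _ _ => norm_nonneg _) (Finset.mem_range.2 hn)
    calc ‖c n‖ ≤ C + ∑ k ∈ Finset.range N, ‖c k‖ := by linarith
      _ ≤ _ := le_mul_of_one_le_right (by positivity) h1
  · refine (hN n hn).trans ?_
    have h3 : ‖(n : ℝ) ^ e‖ ≤ ((n : ℝ) + 1) ^ p := by
      rw [Real.norm_of_nonneg (Real.rpow_nonneg (Nat.cast_nonneg _) _)]
      rcases Nat.eq_zero_or_pos n with h0 | h0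
      · refine le_trans ?_ h1
        rw [h0, Nat.cast_zero]
        exact Real.zero_rpow_le_one e
      · have h4 : (1 : ℝ) ≤ n := by exact_mod_cast h0
        calc (n : ℝ) ^ e ≤ (n : ℝ) ^ (p : ℝ) := Real.rpow_le_rpow_of_exponent_le h4 (Nat.le_ceil e)
          _ = (n : ℝ) ^ p := Real.rpow_natCast _ _
          _ ≤ _ := by gcongr; linarith
    calc C * ‖(n : ℝ) ^ e‖ ≤ C * ((n : ℝ) + 1) ^ p := mul_le_mul_of_nonneg_left h3 hC0.le
      _ ≤ _ := mul_le_mul_of_nonneg_right (by linarith) (by positivity)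

/-- moderate growth -/
lemma ps_growth (hL : 0 < L) (hc : PG c) : ∃ (C : ℝ) (A : ℕ), ∀ τ : ℍ,
    ‖ps c (Periodic.qParam L τ)‖ ≤ C * (1 + 1 / τ.im) ^ A := by
  obtain ⟨C, p, hC⟩ := hc
  have hC0 := PG.nonneg hC
  refine ⟨C * p.factorial * (1 + L / (2 * Real.pi)) ^ (p + 1), p + 1, fun τ => ?_⟩
  set y := τ.im with hy
  have hy0 : 0 < y := τ.im_pos
  set r := ‖Periodic.qParam L τ‖ with hr
  have hr1 : r < 1 := Periodic.norm_qParam_lt_one hL τ.im_pos
  have hr0 : 0 ≤ r := norm_nonneg _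
  set x : ℝ := 2 * Real.pi * y / L with hx
  have hx0 : 0 < x := by positivity
  have hrx : r = Real.exp (-x) := by
    rw [hr, Periodic.norm_qParam, hx]
    congr 1
    show -2 * Real.pi * y / L = _
    ring
  have h1 : 1 / (1 - r) ≤ 1 + 1 / x := by
    have h2 : 1 + x ≤ Real.exp x := by linarith [Real.add_one_le_exp x]
    have h3 : r * (1 + x) ≤ 1 := by
      calc r * (1 + x) ≤ r * Real.exp x := mul_le_mul_of_nonneg_left h2 hr0
        _ = 1 := by rw [hrx, ← Real.exp_add, neg_add_cancel, Real.exp_zero]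
    rw [div_le_iff₀ (by linarith)]
    have h4 : (1 + 1 / x) * (1 - r) = 1 + (1 - r * (1 + x)) / x := by
      field_simp
      ring
    rw [h4]
    have : 0 ≤ (1 - r * (1 + x)) / x := div_nonneg (by linarith) hx0.le
    linarith
  have h5 : 1 + 1 / x ≤ (1 + L / (2 * Real.pi)) * (1 + 1 / y) := by
    have e1 : 1 / x = L / (2 * Real.pi) * (1 / y) := by
      rw [hx]
      field_simp
    rw [e1]
    have : 0 ≤ L / (2 * Real.pi) := by positivity
    have : 0 ≤ 1 / y := by positivity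
    nlinarith
  have hchoose : ∀ k : ℕ, ((k : ℝ) + 1) ^ p ≤ p.factorial * ((k + p).choose p : ℝ) := by
    intro k
    have h6 : (k + 1) ^ p ≤ p.factorial * (k + p).choose p := by
      have h7 := Nat.ascFactorial_eq_factorial_mul_choose (n := k) (k := p)
      have h8 := Nat.pow_succ_le_ascFactorial (k + 1) p
      calc (k + 1) ^ p ≤ (k + 1).ascFactorial p := by
            exact h8
        _ = _ := h7
    exact_mod_cast h6
  have hsum : Summable fun k : ℕ => ((k + p).choose p : ℝ) * r ^ k :=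
    summable_choose_mul_geometric_of_norm_lt_one p (by rwa [Real.norm_of_nonneg hr0])
  have htsum : ∑' k : ℕ, ((k + p).choose p : ℝ) * r ^ k = 1 / (1 - r) ^ (p + 1) :=
    tsum_choose_mul_geometric_of_norm_lt_one p (by rwa [Real.norm_of_nonneg hr0])
  have hb : ‖ps c (Periodic.qParam L τ)‖ ≤ C * p.factorial * (1 / (1 - r) ^ (p + 1)) := by
    rw [← htsum]
    have hs := (hsum.mul_left (C * p.factorial)).hasSum
    rw [tsum_mul_left] at hs
    unfold ps
    refine tsum_of_norm_bounded hs fun k => ?_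
    rw [norm_mul, norm_pow, ← hr]
    calc ‖c k‖ * r ^ k ≤ (C * ((k : ℝ) + 1) ^ p) * r ^ k := mul_le_mul_of_nonneg_right (hC k) (by positivity)
      _ ≤ (C * (p.factorial * ((k + p).choose p : ℝ))) * r ^ k :=
        mul_le_mul_of_nonneg_right (mul_le_mul_of_nonneg_left (hchoose k) hC0) (by positivity)
      _ = _ := by ring
  refine hb.trans ?_
  have h9 : 1 / (1 - r) ^ (p + 1) ≤ ((1 + L / (2 * Real.pi)) * (1 + 1 / y)) ^ (p + 1) := by
    rw [← _root_.one_div_pow]
    have : 0 < 1 - r := by linarith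
    exact pow_le_pow_left₀ (by positivity) (h1.trans h5) _
  calc C * p.factorial * (1 / (1 - r) ^ (p + 1)) ≤
      C * p.factorial * ((1 + L / (2 * Real.pi)) * (1 + 1 / y)) ^ (p + 1) :=
        mul_le_mul_of_nonneg_left h9 (by positivity)
    _ = _ := by rw [mul_pow]; ring

end Eix

open Bol Eix Filter Topology Function in
open Pool.Agent.Y119.HY (ps PG ps_zero ps_deriv ps_an ps_diff) in
theorem eix : S_EIX := by
  intro 𝒢 _ m f
  set L : ℝ := 𝒢.strictWidthInfty with hLd
  have hL : 0 < L := 𝒢.strictWidthInfty_pos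
  have hΓ : L ∈ 𝒢.strictPeriods := 𝒢.strictWidthInfty_mem_strictPeriods
  have : Fact (IsCusp OnePoint.infty 𝒢) := ⟨𝒢.isCusp_of_mem_strictPeriods hL hΓ⟩
  set a : ℕ → ℂ := fun n => (qExpansion L f).coeff n with ha
  have ha0 : a 0 = 0 := CuspFormClass.qExpansion_coeff_zero f hL hΓ
  have haPG : PG a := PG_of_isBigO (CuspFormClass.qExpansion_isBigO f)
  have hfa : ∀ τ : ℍ, f τ = ps a (Periodic.qParam L τ) := fun τ =>
    (ModularForm.hasSum_qExpansion f hL hΓ τ).tsum_eq.symm
  set b : ℕ → ℂ := fun n => a n * (1 / (κ L * n)) ^ m with hb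
  have hb0 : b 0 = 0 := by
    rw [hb]
    simp only
    rw [ha0, zero_mul]
  have hκ : κ L ≠ 0 := by
    unfold κ
    refine div_ne_zero (by simp [Real.pi_ne_zero]) ?_
    exact_mod_cast hL.ne'
  have hbPG : PG b := by
    obtain ⟨C, p, hC⟩ := haPG
    have hC0 := PG.nonneg hC
    refine ⟨C * ‖1 / κ L‖ ^ m, p, fun n => ?_⟩
    rcases Nat.eq_zero_or_pos n with h0 | h0
    · rw [h0, hb0, norm_zero]
      positivity
    · rw [hb]
      simp only
      rw [norm_mul, norm_pow]
      have h1 : ‖1 / (κ L * n)‖ ≤ ‖1 / κ L‖ := by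
        rw [norm_div, norm_div, norm_mul, Complex.norm_natCast]
        have h2 : (1 : ℝ) ≤ n := by exact_mod_cast h0
        have h3 : 0 < ‖κ L‖ := norm_pos_iff.2 hκ
        rw [norm_one]
        exact one_div_le_one_div_of_le h3 (le_mul_of_one_le_right h3.le h2)
      calc ‖a n‖ * ‖1 / (κ L * n)‖ ^ m ≤ (C * ((n : ℝ) + 1) ^ p) * ‖1 / κ L‖ ^ m :=
            mul_le_mul (hC n) (pow_le_pow_left₀ (norm_nonneg _) h1 _) (by positivity) (by positivity)
        _ = _ := by ring
  have hba : ∀ n : ℕ, κ L ^ m * ((n : ℂ) ^ m * b n) = a n := by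
    intro n
    rcases Nat.eq_zero_or_pos n with h0 | h0
    · rw [h0, hb0, ha0]
      simp
    · have h1 : (n : ℂ) ≠ 0 := by exact_mod_cast h0.ne'
      rw [hb]
      simp only
      rw [div_pow, one_pow, mul_pow]
      field_simp
  refine ⟨fun τ => ps b (Periodic.qParam L τ), ⟨?_, ?_, fun z => ?_⟩, ps_growth hL hbPG⟩
  · rw [UpperHalfPlane.mdifferentiable_iff]
    have h1 : ∀ w ∈ U, ((fun τ : ℍ => ps b (Periodic.qParam L τ)) ∘ ofComplex) w = ps b (Periodic.qParam L w) := by
      intro w hw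
      rw [Function.comp_apply, ofComplex_apply_of_im_pos hw]
    intro w hw
    refine DifferentiableAt.differentiableWithinAt ?_
    exact (hd_ps hL hbPG hw).differentiableAt.congr_of_eventuallyEq (ev h1 hw)
  · have h1 : Tendsto (fun τ : ℍ => Periodic.qParam L τ) atImInfty (𝓝 0) := qParam_tendsto_atImInfty hL
    have h2 : ContinuousAt (ps b) 0 := (ps_an hbPG 0 (Metric.mem_ball_self one_pos)).continuousAt
    have h3 := h2.tendsto.comp h1
    rw [ps_zero, hb0] at h3
    exact h3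
  · have h1 : ∀ w ∈ U, ((fun τ : ℍ => ps b (Periodic.qParam L τ)) ∘ ofComplex) w = ps b (Periodic.qParam L w) := by
      intro w hw
      rw [Function.comp_apply, ofComplex_apply_of_im_pos hw]
    have hz : (z : ℂ) ∈ U := z.im_pos
    rw [(ev h1 hz).iteratedDeriv_eq m, iter hL hbPG m z hz, ← Pool.Agent.Y119.HY.ps_smul, hfa z]
    congr 1
    funext n
    exact hba n

end H635.PER
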